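import Pool.Agent.Q251.SV.Quad

/-!
# Cuban primes in short intervals at almost all positions

`cuban k = (k + 1) ^ 3 - k ^ 3 = 3 k ^ 2 + 3 k + 1`.  For the interval `(N, N + X ^ θ]`, `N ≤ X`, the
sieve has the level of distribution `X ^ θ`, and the upper bound is `4 / θ + δ` times the number
`C X ^ θ / (2 log X)` of the cuban primes predicted by Bateman and Horn.  Here for all but few positions
`N ≤ X` the level is `X ^ τ`, `τ` up to `(1 + θ) / 2`, however small `θ` is, in all arithmetic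
progressions `k = q n + u`.
-/

set_option autoImplicit false

namespace Pool.Agent.Results.MP_22d6bb_nt.AlmostAllShortIntervals

open Finset Filter Topology

/-- The difference of the cubes of `k + 1` and `k`. -/
def cuban (k : ℤ) : ℤ := (k + 1) ^ 3 - k ^ 3

/-- The number of the residues `n` modulo `p` such that `p` divides `cuban (q n + u)`. -/
def rho (q u p : ℕ) : ℕ :=
  #((Finset.range p).filter (fun n : ℕ => (p : ℤ) ∣ cuban ((q : ℤ) * n + u)))

/-- The product over the primes `p ≤ z` of `(1 - ρ(p) / p) (1 - 1 / p)^(-1)`. -/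
noncomputable def cut (q u z : ℕ) : ℝ :=
  ∏ p ∈ (Finset.range (z + 1)).filter Nat.Prime, (1 - (rho q u p : ℝ) / p) / (1 - 1 / (p : ℝ))

/-- The number of `N < n ≤ N + H` such that `cuban (q n + u)` is a prime. -/
def P (q u N H : ℕ) : ℕ :=
  #((Ioc N (N + H)).filter (fun n : ℕ => Nat.Prime (cuban ((q : ℤ) * n + u)).natAbs))

open Classical in
/-- The number of `N < n ≤ N + H` such that `cuban (q n + u)` has no prime factor below `z`. -/
noncomputable def R (q u : ℕ) (z : ℝ) (N H : ℕ) : ℕ :=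
  #((Ioc N (N + H)).filter
    (fun n : ℕ => ∀ p : ℕ, p.Prime → (p : ℤ) ∣ cuban ((q : ℤ) * n + u) → z ≤ p))

/-- `F` and `f` are the upper and the lower function of the linear sieve. -/
structure SieveFunctions (F f : ℝ → ℝ) : Prop where
  contF : ContinuousOn F (Set.Ici 1)
  contf : ContinuousOn f (Set.Ici 1)
  initF : ∀ s, 1 ≤ s → s ≤ 3 → F s = 2 * Real.exp Real.eulerMascheroniConstant / s
  initf : ∀ s, 1 ≤ s → s ≤ 2 → f s = 0
  nextf : ∀ s, 2 ≤ s → s ≤ 4 → f s = 2 * Real.exp Real.eulerMascheroniConstant * Real.log (s - 1) / s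
  eqF : ∀ s, 3 ≤ s → s * F s = 2 * Real.exp Real.eulerMascheroniConstant + ∫ x in (3 : ℝ)..s, f (x - 1)
  eqf : ∀ s, 2 ≤ s → s * f s = ∫ x in (2 : ℝ)..s, F (x - 1)
  limF : Tendsto F atTop (𝓝 1)
  limf : Tendsto f atTop (𝓝 1)

open Pool.Agent.Q251.SV Pool.Agent.Y882.PX

/-- the polynomial -/
noncomputable def G (q u : ℕ) : Polynomial ℤ := Q3 (3 * q ^ 2) (3 * q * (2 * u + 1)) (cuban u)

lemma G_eval (q u : ℕ) (n : ℤ) : (G q u).eval n = cuban ((q : ℤ) * n + u) := by
  unfold G cuban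
  rw [Q3_eval]
  ring

lemma rho_eq (q u p : ℕ) : rho q u p = ro (G q u) 0 p := by
  rw [ro_eq]
  unfold rho
  congr 1
  apply filter_congr
  intro n _
  rw [G_eval, add_zero]

lemma disc (q : ℕ) (hq : 0 < q) (u : ℕ) :
    ¬ IsSquare (((3 * q * (2 * u + 1) : ℕ) : ℤ) ^ 2 - 4 * (3 * q ^ 2) * cuban u) := by
  have h1 : ((3 * q * (2 * u + 1) : ℕ) : ℤ) ^ 2 - 4 * (3 * q ^ 2) * cuban u = -(3 * (q : ℤ) ^ 2) := by
    unfold cuban
    push_cast
    ring
  rw [h1]
  rintro ⟨r, hr⟩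
  have h2 : 0 < (q : ℤ) := by exact_mod_cast hq
  nlinarith [mul_self_nonneg r, pow_pos h2 2]

lemma cuban_odd (k : ℤ) : ¬ (2 : ℤ) ∣ cuban k := by
  have h1 : cuban k = 3 * (k * (k + 1)) + 1 := by unfold cuban; ring
  have h2 : (2 : ℤ) ∣ k * (k + 1) := (Int.even_mul_succ_self k).two_dvd
  rw [h1]
  omega

lemma cuban_three (k : ℤ) : ¬ (3 : ℤ) ∣ cuban k := by
  have h1 : cuban k = 3 * (k * (k + 1)) + 1 := by unfold cuban; ring
  rw [h1]
  omega

/-- there is no fixed prime divisor -/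
lemma rho_lt (q u : ℕ) (hu : IsCoprime (cuban u) (q : ℤ)) (p : ℕ) (hp : p.Prime) :
    ro (G q u) 0 p < p := by
  have : Fact p.Prime := ⟨hp⟩
  by_cases hpq : (p : ℤ) ∣ q
  · -- no roots
    have h0 : ro (G q u) 0 p = 0 := by
      rw [← rho_eq]
      unfold rho
      rw [card_eq_zero, filter_eq_empty_iff]
      intro n _ hd
      have h1 : (p : ℤ) ∣ cuban u := by
        have h2 : cuban ((q : ℤ) * n + u) = cuban u + q * (n * (3 * q * n + 6 * u + 3)) := by
          unfold cuban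
          ring
        rw [h2] at hd
        exact (Int.dvd_add_left (Dvd.dvd.mul_right hpq _)).1 hd
      have h3 := hu.isUnit_of_dvd' h1 hpq
      have h4 := Int.isUnit_iff.1 h3
      have h5 := hp.two_le
      omega
    rw [h0]
    exact hp.pos
  · by_cases h23 : p = 2 ∨ p = 3
    · have h0 : ro (G q u) 0 p = 0 := by
        rw [← rho_eq]
        unfold rho
        rw [card_eq_zero, filter_eq_empty_iff]
        intro n _ hd
        rcases h23 with h | h
        · rw [h] at hd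
          exact cuban_odd _ hd
        · rw [h] at hd
          exact cuban_three _ hd
      rw [h0]
      exact hp.pos
    · push Not at h23
      have hp5 : 5 ≤ p := by
        have h2 := hp.two_le
        by_contra hcon
        have h4 : p = 4 := by omega
        rw [h4] at hp
        exact absurd hp (by norm_num)
      have hna : ¬ (p : ℤ) ∣ 2 * (3 * (q : ℤ) ^ 2) := by
        intro hd
        have hpp : Prime (p : ℤ) := Nat.prime_iff_prime_int.1 hp
        rcases hpp.dvd_or_dvd hd with h | h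
        · have := Int.le_of_dvd (by norm_num) h
          omega
        · rcases hpp.dvd_or_dvd h with h | h
          · have := Int.le_of_dvd (by norm_num) h
            omega
          · exact hpq (hpp.dvd_of_dvd_pow h)
      unfold G
      rw [ro_Q3 _ _ _ p hp hna]
      have := Pool.Agent.Y882.SI.ro_quad_le (4 * (3 * (q : ℤ) ^ 2) * cuban u -
        (3 * (q : ℤ) * (2 * u + 1)) ^ 2) p hp
      omega

/-- **Cuban primes at almost all positions.** Let `q ≥ 1` and let `u` be such that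
`cuban u = 3 u ^ 2 + 3 u + 1` is prime to `q`. The products `cut q u z` converge to a number `C > 0`, there
are the functions `F`, `f` of the linear sieve, and for `0 < θ ≤ 1`, `1 / 2 ≤ τ < 1`, `s ≥ 1` and
`δ, ε > 0` and all large `X` all but at most `X ^ (2 τ - θ + ε)` of the integers `1 ≤ N ≤ X` have the
following properties:
* at most `(2 / τ + δ) C X ^ θ / log X` of the `n` in `(N, N + X ^ θ]` have a prime `cuban (q n + u)`;
* the number of the `n` in `(N, N + X ^ θ]` for which `cuban (q n + u)` has no prime factor `< X ^ (τ / s)`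
  is at least `(f(s) - δ) e ^ (-γ) (s / τ) C X ^ θ / log X` and at most
  `(F(s) + δ) e ^ (-γ) (s / τ) C X ^ θ / log X`. -/
theorem result (q u : ℕ) (hq : 0 < q) (hu : IsCoprime (cuban u) (q : ℤ)) :
    ∃ C : ℝ, 0 < C ∧ Tendsto (fun z : ℕ => cut q u z) atTop (𝓝 C) ∧
    ∃ F f : ℝ → ℝ, SieveFunctions F f ∧
    ∀ θ τ s δ ε : ℝ, 0 < θ → θ ≤ 1 → 1 / 2 ≤ τ → τ < 1 → 1 ≤ s → 0 < δ → 0 < ε →
    ∀ᶠ X : ℕ in atTop, ∃ Bad ⊆ Icc 1 X, (#Bad : ℝ) ≤ (X : ℝ) ^ (2 * τ - θ + ε) ∧
    ∀ N ∈ Icc 1 X, N ∉ Bad →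
      (P q u N ⌊(X : ℝ) ^ θ⌋₊ : ℝ) ≤ (2 / τ + δ) * C * (X : ℝ) ^ θ / Real.log X ∧
      (f s - δ) * (Real.exp (-Real.eulerMascheroniConstant) * s / τ) * C * (X : ℝ) ^ θ / Real.log X ≤
        (R q u ((X : ℝ) ^ (τ / s)) N ⌊(X : ℝ) ^ θ⌋₊ : ℝ) ∧
      (R q u ((X : ℝ) ^ (τ / s)) N ⌊(X : ℝ) ^ θ⌋₊ : ℝ) ≤
        (F s + δ) * (Real.exp (-Real.eulerMascheroniConstant) * s / τ) * C * (X : ℝ) ^ θ /
          Real.log X := by
  classical
  have hq0 : (q : ℤ) ≠ 0 := by exact_mod_cast hq.ne'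
  have ha : (3 * (q : ℤ) ^ 2) ≠ 0 := by positivity
  have hD := disc q hq u
  push_cast at hD
  have hM : ∀ n : ℕ, n ≤ 1 * (((G q u).eval (n : ℤ)).natAbs + 1) := by
    intro n
    rw [G_eval, one_mul]
    have h1 : (n : ℤ) ≤ cuban ((q : ℤ) * n + u) := by
      unfold cuban
      have h2 : (1 : ℤ) ≤ q := by exact_mod_cast hq
      have h3 : (0 : ℤ) ≤ n := Nat.cast_nonneg _
      have h4 : (0 : ℤ) ≤ u := Nat.cast_nonneg _
      nlinarith [mul_nonneg h3 h4, mul_nonneg (mul_nonneg h3 h4) (show (0 : ℤ) ≤ q by omega), sq_nonneg ((q : ℤ) * n + u), mul_nonneg h3 (sub_nonneg.2 h2)]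
    have h2 : cuban ((q : ℤ) * n + u) ≤ (cuban ((q : ℤ) * n + u)).natAbs := Int.le_natAbs
    have h3 : (n : ℤ) ≤ ((cuban ((q : ℤ) * n + u)).natAbs : ℤ) := h1.trans h2
    have h4 : n ≤ (cuban ((q : ℤ) * n + u)).natAbs := by exact_mod_cast h3
    omega
  obtain ⟨C, hC, hR, F, f, hF, hmain⟩ := main (G q u) (Q3_deg _ _ _ ha) (cv_Q3 _ _ _ ha hD)
    (rho_lt q u hu) 1 hM
  have hP : ∀ N H : ℕ, P q u N H = PG (G q u) N H := by
    intro N H
    unfold P PG
    congr 1
    apply filter_congr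
    intro n _
    rw [G_eval]
  have hRR : ∀ (z : ℝ) (N H : ℕ), R q u z N H = roughG (G q u) z N H := by
    intro z N H
    unfold R roughG
    congr 1
    apply filter_congr
    intro n _
    rw [G_eval]
  have hcut : ∀ z : ℕ, cut q u z = RG (G q u) (z + 1) := by
    intro z
    unfold cut RG
    apply prod_congr rfl
    intro p _
    rw [rho_eq]
  refine ⟨C, hC, ?_, F, f, ⟨hF.contF, hF.contf, hF.initF, hF.initf, hF.nextf, hF.eqF, hF.eqf,
    hF.limF, hF.limf⟩, ?_⟩
  · exact (hR.comp (tendsto_add_atTop_nat 1)).congr (fun z => (hcut z).symm)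
  · intro θ τ s δ ε h1 h2 h3 h4 h5 h6 h7
    filter_upwards [hmain θ τ s δ ε h1 h2 h3 h4 h5 h6 h7] with X hX
    obtain ⟨Bad, hB1, hB2, hB3⟩ := hX
    refine ⟨Bad, hB1, hB2, fun N hN hNB => ?_⟩
    rw [hP, hRR]
    exact hB3 N hN hNB

end Pool.Agent.Results.MP_22d6bb_nt.AlmostAllShortIntervals
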