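import Pool.Agent.Q250.NP.NatRow

/-!
# Differences of consecutive cubes without small prime factors, at all integers and at primes: narrow progressions, uniformly in
all linear substitutions
-/

set_option autoImplicit false

namespace Pool.Agent.Results.MP_22d6bb_nt.NarrowProgressions

open Finset Filter Polynomial
open Pool.Agent.Q250.NP
open Pool.Agent.Q253.Line (W NFD rt rt_le rt_lt dvd_eval_emod)
open Pool.Agent.Q253.Thin (SysZ IS VZ_low VZ_nonneg)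
open Pool.Agent.Y843.HS (VV)

/-- the difference of consecutive cubes `(k + 1) ^ 3 - k ^ 3` -/
def dif (k : ℤ) : ℤ := (k + 1) ^ 3 - k ^ 3

/-- its absolute value, a natural number -/
def cub (k : ℤ) : ℕ := (dif k).natAbs

/-- `∏ dif (r_i x + b_i)` if `e = false`, `x ∏ dif (r_i x + b_i)` if `e = true` -/
def form {m : ℕ} (e : Bool) (r : Fin m → ℕ) (b : Fin m → ℤ) (x : ℤ) : ℤ := (if e then x else 1) * ∏ i, dif (r i * x + b i)

/-- no prime divides all the values of `form e r b` -/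
def Admissible {m : ℕ} (e : Bool) (r : Fin m → ℕ) (b : Fin m → ℤ) : Prop :=
  ∀ p : ℕ, p.Prime → ∃ x : ℤ, ¬ (p : ℤ) ∣ form e r b x

/-- the number of the classes `x` modulo `p` with `p ∣ form e r b x` -/
def omega {m : ℕ} (e : Bool) (r : Fin m → ℕ) (b : Fin m → ℤ) (p : ℕ) : ℕ :=
  ((range p).filter (fun x : ℕ => (p : ℤ) ∣ form e r b x)).card

/-- the product of `1 - omega p / p` over the primes `p ≤ X` -/
noncomputable def dens {m : ℕ} (e : Bool) (r : Fin m → ℕ) (b : Fin m → ℤ) (X : ℕ) : ℝ :=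
  ∏ p ∈ (Icc 1 X).filter Nat.Prime, (1 - (omega e r b p : ℝ) / p)

/-- all prime factors of all the numbers `cub (r_i y + b_i)` are larger than `X ^ (1/t)` -/
def Rough {m : ℕ} (t X : ℕ) (r : Fin m → ℕ) (b : Fin m → ℤ) (y : ℕ) : Prop :=
  ∀ i, ∀ p : ℕ, p.Prime → p ∣ cub (r i * y + b i) → (X : ℝ) ^ (1 / (t : ℝ)) < p

open Classical in
/-- the `n` in `(u, v]` for which all the numbers `cub (r_i n + b_i)` are rough -/
noncomputable def Good {m : ℕ} (t X u v : ℕ) (r : Fin m → ℕ) (b : Fin m → ℤ) : Finset ℕ := (Ioc u v).filter (Rough t X r b)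

open Classical in
/-- the primes `X < p < 2 X` for which all the numbers `cub (r_i p + b_i)` are rough -/
noncomputable def GoodPrimes {m : ℕ} (t X : ℕ) (r : Fin m → ℕ) (b : Fin m → ℤ) : Finset ℕ :=
  (Ioo X (2 * X)).filter (fun p : ℕ => p.Prime ∧ Rough t X r b p)

/-! ### The polynomials -/

section

variable {m : ℕ}

theorem dif_eq (k : ℤ) : dif k = 3 * k ^ 2 + 3 * k + 1 := by
  unfold dif
  ring

theorem dif_pos (k : ℤ) : 1 ≤ dif k := by
  rw [dif_eq]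
  rcases le_or_gt 0 k with h | h
  · nlinarith
  · nlinarith [mul_nonneg (by linarith : (0 : ℤ) ≤ -k) (by omega : (0 : ℤ) ≤ -(k + 1))]

theorem cub_cast (k : ℤ) : ((cub k : ℕ) : ℤ) = dif k := by
  unfold cub
  rw [Int.natCast_natAbs, abs_of_pos (lt_of_lt_of_le one_pos (dif_pos k))]

theorem cub_ne (k : ℤ) : cub k ≠ 0 := by
  intro h
  have h1 := cub_cast k
  rw [h] at h1
  have := dif_pos k
  rw [← h1] at this
  norm_num at this

/-- the polynomials -/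
noncomputable def G (r : Fin m → ℕ) (b : Fin m → ℤ) (i : Fin m) : ℤ[X] :=
  C (3 * (r i : ℤ) ^ 2) * X ^ 2 + C (3 * (r i : ℤ) * (2 * b i + 1)) * X + C (dif (b i))

theorem eval_G (r : Fin m → ℕ) (b : Fin m → ℤ) (i : Fin m) (x : ℤ) : (G r b i).eval x = dif (r i * x + b i) := by
  unfold G dif
  simp only [eval_add, eval_mul, eval_C, eval_pow, eval_X]
  ring

theorem deg_G (r : Fin m → ℕ) (b : Fin m → ℤ) : (∏ i, G r b i).natDegree ≤ 2 * m := by
  refine (natDegree_prod_le _ _).trans ?_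
  calc _ ≤ ∑ _i : Fin m, 2 := by
        apply sum_le_sum
        intro i _
        unfold G
        compute_degree
    _ = 2 * m := by simp [mul_comm]

theorem eval_prodG (r : Fin m → ℕ) (b : Fin m → ℤ) (x : ℤ) : (∏ i, G r b i).eval x = form false r b x := by
  unfold form
  rw [eval_prod, if_neg (by simp), one_mul]
  simp only [eval_G]

theorem eval_all (r : Fin m → ℕ) (b : Fin m → ℤ) (x : ℤ) :
    ((C (1 : ℤ) * X + C (0 : ℤ)) * ∏ i, G r b i).eval x = form true r b x := by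
  unfold form
  rw [eval_mul, eval_prod, if_pos rfl]
  simp only [eval_G, eval_add, eval_mul, eval_C, eval_X]
  ring

theorem dens_true (r : Fin m → ℕ) (b : Fin m → ℤ) (n : ℕ) :
    dens true r b n = W ((C (1 : ℤ) * X + C (0 : ℤ)) * ∏ i, G r b i) n := by
  unfold dens W
  apply prod_congr rfl
  intro p _
  unfold omega rt
  simp only [eval_all]

/-! ### Free arguments -/

/-- the classes modulo `p` where `p` divides one of the values -/
def Z (r : Fin m → ℕ) (b : Fin m → ℤ) (p : ℕ) : Finset ℕ := (range p).filter (fun x : ℕ => (p : ℤ) ∣ form false r b x)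

theorem card_Z (r : Fin m → ℕ) (b : Fin m → ℤ) (p : ℕ) : (Z r b p).card = rt (∏ i, G r b i) p := by
  unfold Z rt
  simp only [eval_prodG]

theorem mem_Z (r : Fin m → ℕ) (b : Fin m → ℤ) {p : ℕ} (hp : p.Prime) (n : ℕ) :
    n % p ∈ Z r b p ↔ ∃ i, p ∣ cub (r i * n + b i) := by
  unfold Z
  rw [mem_filter, mem_range, ← eval_prodG]
  have h0 : (((n % p : ℕ) : ℕ) : ℤ) = (n : ℤ) % (p : ℤ) := by push_cast; rfl
  rw [h0, ← dvd_eval_emod, eval_prodG]
  have h1 : (p : ℤ) ∣ form false r b n ↔ ∃ i, (p : ℤ) ∣ dif (r i * n + b i) := by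
    unfold form
    rw [if_neg (by simp), one_mul]
    constructor
    · intro h3
      obtain ⟨i, _, hi⟩ := (Prime.dvd_finsetProd_iff (Nat.prime_iff_prime_int.1 hp) _).1 h3
      exact ⟨i, hi⟩
    · rintro ⟨i, hi⟩
      exact hi.trans (dvd_prod_of_mem _ (mem_univ i))
  rw [h1]
  constructor
  · rintro ⟨_, i, hi⟩
    exact ⟨i, Int.natCast_dvd.1 hi⟩
  · rintro ⟨i, hi⟩
    exact ⟨Nat.mod_lt _ hp.pos, i, Int.natCast_dvd.2 hi⟩

theorem sys {r : Fin m → ℕ} {b : Fin m → ℤ} (h : Admissible false r b) : SysZ (2 * m) (Z r b) := by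
  have hn : ∀ p : ℕ, p.Prime → ∃ x : ℤ, ¬ (p : ℤ) ∣ (∏ i, G r b i).eval x := by
    intro p hp
    obtain ⟨x, hx⟩ := h p hp
    exact ⟨x, by rw [eval_prodG]; exact hx⟩
  constructor
  · intro p hp
    rw [card_Z]
    exact (rt_le hp (hn p hp)).trans (deg_G r b)
  · intro p hp
    rw [card_Z]
    exact rt_lt hp (hn p hp)
  · intro p _ x hx
    unfold Z at hx
    rw [mem_filter, mem_range] at hx
    exact hx.1

theorem Good_eq (t X u v : ℕ) (r : Fin m → ℕ) (b : Fin m → ℤ) : Good t X u v r b = IS t X u v (Z r b) := by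
  classical
  ext n
  unfold Good IS
  rw [mem_filter, mem_filter]
  refine and_congr_right fun _ => ?_
  unfold Rough
  constructor
  · intro h q hq hqX hmem
    rw [mem_Z r b hq] at hmem
    obtain ⟨i, hi⟩ := hmem
    exact absurd (h i q hq hi) (not_lt.2 hqX)
  · intro h i p hp hpd
    by_contra hcon
    push Not at hcon
    exact h p hp hcon ((mem_Z r b hp n).2 ⟨i, hpd⟩)

theorem dens_false (r : Fin m → ℕ) (b : Fin m → ℤ) (X : ℕ) : dens false r b X = VV (Z r b) 0 X := by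
  unfold dens VV Pool.Agent.Y843.HS.Pr
  have h1 : Icc 1 X = Ioc 0 X := by
    ext p
    rw [mem_Icc, mem_Ioc]
    omega
  rw [h1]
  rfl

/-! ### Prime arguments -/

theorem rep {k n : ℕ} {r : Fin m → ℕ} {b : Fin m → ℤ} (h : Admissible true r b) (hn : 37 ≤ n) (hr : ∀ i, 1 ≤ r i ∧ r i ≤ n ^ k)
    (hs : ∀ i, -((r i : ℤ) * n) ≤ b i ∧ b i ≤ (n : ℤ) ^ k) :
    Rep (2 * m) (2 * k + 3) n 1 0 (fun y => y) (fun i y => cub (r i * y + b i)) (G r b) := by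
  constructor
  · exact deg_G r b
  · intro p hp
    obtain ⟨x, hx⟩ := h p hp
    exact ⟨x, by rw [eval_all]; exact hx⟩
  · intro y h1 h2
    exact ⟨by simp, h1⟩
  · intro y h1 h2 i
    rw [eval_G]
    rfl
  · intro y h1 h2 i
    obtain ⟨h3, h4⟩ := hs i
    obtain ⟨h5, h6⟩ := hr i
    have h1' : (n : ℤ) + 1 ≤ y := by exact_mod_cast h1
    have h2' : (y : ℤ) ≤ 2 * n := by exact_mod_cast h2.le
    have hn' : (37 : ℤ) ≤ n := by exact_mod_cast hn
    have h5' : (1 : ℤ) ≤ r i := by exact_mod_cast h5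
    have h6' : (r i : ℤ) ≤ (n : ℤ) ^ k := by exact_mod_cast h6
    obtain ⟨K, hK⟩ : ∃ K : ℤ, K = (r i : ℤ) * y + b i := ⟨_, rfl⟩
    have e1 : (1 : ℤ) ≤ K := by nlinarith
    have e5 : (1 : ℤ) ≤ (n : ℤ) ^ k := by exact_mod_cast Nat.one_le_pow _ _ (by omega)
    have e2 : K ≤ 3 * (n : ℤ) ^ (k + 1) := by
      have e3 : (r i : ℤ) * y ≤ (n : ℤ) ^ k * (2 * n) := mul_le_mul h6' h2' (by omega) (by omega)
      have e4 : (n : ℤ) ^ k ≤ (n : ℤ) ^ k * n := by nlinarith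
      rw [pow_succ]
      linarith
    have e6 : ((cub (r i * y + b i) : ℕ) : ℤ) = 3 * K ^ 2 + 3 * K + 1 := by
      rw [cub_cast, dif_eq, hK]
    constructor
    · have : (2 : ℤ) ≤ (cub (r i * y + b i) : ℕ) := by rw [e6]; nlinarith
      exact_mod_cast this
    · have : ((cub (r i * y + b i) : ℕ) : ℤ) ≤ (n : ℤ) ^ (2 * k + 3) := by
        rw [e6]
        have e7 : (1 : ℤ) ≤ (n : ℤ) ^ (k + 1) := by exact_mod_cast Nat.one_le_pow _ _ (by omega)
        have e8 : K ^ 2 ≤ (3 * (n : ℤ) ^ (k + 1)) ^ 2 := pow_le_pow_left₀ (by linarith) e2 2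
        have e9 : (n : ℤ) ^ (2 * k + 3) = ((n : ℤ) ^ (k + 1)) ^ 2 * n := by
          rw [← pow_mul, ← pow_succ]
          congr 1
          ring
        rw [e9]
        have e10 : (37 : ℤ) * ((n : ℤ) ^ (k + 1)) ^ 2 ≤ ((n : ℤ) ^ (k + 1)) ^ 2 * n := by
          rw [mul_comm]
          exact mul_le_mul_of_nonneg_left hn' (by positivity)
        nlinarith
      exact_mod_cast this

theorem GoodPrimes_eq (t n : ℕ) (r : Fin m → ℕ) (b : Fin m → ℤ) :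
    GoodPrimes t n r b = T (fun y => y) (fun i y => cub (r i * y + b i)) t n := by
  classical
  ext y
  unfold GoodPrimes T
  rw [mem_filter, mem_filter]
  exact Iff.rfl

end

/-- a single substitution `r x + b` is admissible in both senses if `r` and `(b + 1) ^ 3 - b ^ 3` are coprime; in particular
`x + b` and `r x`, and the identity of the question -/
theorem adm_one (e : Bool) {r : ℕ} {b : ℤ} (h : r.Coprime (cub b)) : Admissible e (fun _ : Fin 1 => r) (fun _ => b) := by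
  intro p hp
  by_contra hcon
  push Not at hcon
  have hpz := Nat.prime_iff_prime_int.1 hp
  have key : ∀ x : ℤ, ¬ (p : ℤ) ∣ x → (p : ℤ) ∣ dif (r * x + b) := by
    intro x hx
    have h1 := hcon x
    unfold form at h1
    rw [Fin.prod_univ_one] at h1
    rcases hpz.dvd_or_dvd h1 with h2 | h2
    · split_ifs at h2
      · exact absurd h2 hx
      · exfalso
        exact hpz.not_dvd_one h2
    · exact h2
  have hone : ¬ (p : ℤ) ∣ 1 := hpz.not_dvd_one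
  have h1 := key 1 hone
  rw [mul_one, dif_eq] at h1
  by_cases hpr : p ∣ r
  · have hprz : (p : ℤ) ∣ r := Int.natCast_dvd_natCast.2 hpr
    have h2 : (p : ℤ) ∣ dif b := by
      rw [dif_eq]
      have h3 : 3 * b ^ 2 + 3 * b + 1 = (3 * ((r : ℤ) + b) ^ 2 + 3 * ((r : ℤ) + b) + 1) - r * (3 * r + 6 * b + 3) := by ring
      rw [h3]
      exact dvd_sub h1 (hprz.mul_right _)
    have h3 : p ∣ cub b := Int.natCast_dvd.1 h2
    exact hp.one_lt.ne' (Nat.dvd_one.1 (h ▸ Nat.dvd_gcd hpr h3))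
  · have hprz : ¬ (p : ℤ) ∣ r := fun hc => hpr (Int.natCast_dvd_natCast.1 hc)
    have hp2 : p ≠ 2 := by
      rintro rfl
      have h2 : (2 : ℤ) ∣ ((r : ℤ) + b) * (((r : ℤ) + b) + 1) := (Int.even_mul_succ_self _).two_dvd
      have h3 : ((2 : ℕ) : ℤ) ∣ 1 := by
        have h4 : (1 : ℤ) = (3 * ((r : ℤ) + b) ^ 2 + 3 * ((r : ℤ) + b) + 1) - (((r : ℤ) + b) * (((r : ℤ) + b) + 1)) * 3 := by ring
        rw [h4]
        exact dvd_sub h1 (h2.mul_right _)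
      exact hone h3
    have hp3 : p ≠ 3 := by
      rintro rfl
      have h3 : ((3 : ℕ) : ℤ) ∣ 1 := by
        have h4 : (1 : ℤ) = (3 * ((r : ℤ) + b) ^ 2 + 3 * ((r : ℤ) + b) + 1) - 3 * (((r : ℤ) + b) * (((r : ℤ) + b) + 1)) := by ring
        rw [h4]
        exact dvd_sub h1 (Dvd.intro _ rfl)
      exact hone h3
    have h2' : ¬ (p : ℤ) ∣ 2 := by
      intro hc
      have : p ∣ 2 := by exact_mod_cast hc
      exact hp2 ((Nat.prime_dvd_prime_iff_eq hp Nat.prime_two).1 this)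
    have h3' : ¬ (p : ℤ) ∣ 3 := by
      intro hc
      have : p ∣ 3 := by exact_mod_cast hc
      exact hp3 ((Nat.prime_dvd_prime_iff_eq hp Nat.prime_three).1 this)
    have h2 := key 2 h2'
    have h3 := key 3 h3'
    rw [dif_eq] at h2 h3
    have h4 : (p : ℤ) ∣ 2 * 3 * (r : ℤ) ^ 2 := by
      have h5 : 2 * 3 * (r : ℤ) ^ 2 = (3 * ((r : ℤ) * 3 + b) ^ 2 + 3 * ((r : ℤ) * 3 + b) + 1) -
          (3 * ((r : ℤ) * 2 + b) ^ 2 + 3 * ((r : ℤ) * 2 + b) + 1) * 2 + (3 * ((r : ℤ) + b) ^ 2 + 3 * ((r : ℤ) + b) + 1) := by ring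
      rw [h5]
      exact dvd_add (dvd_sub h3 (h2.mul_right _)) h1
    rcases hpz.dvd_or_dvd h4 with h5 | h5
    · rcases hpz.dvd_or_dvd h5 with h6 | h6
      · exact h2' h6
      · exact h3' h6
    · exact hprz (hpz.dvd_of_dvd_pow h5)

theorem cub_one_three {r : ℕ} {b : ℤ} {a d : ℕ} (hr : 1 ≤ r) (hd : 1 ≤ d) (h0 : cub (r * a + b) = 1)
    (h2 : cub (r * ((a + 2 * d : ℕ) : ℤ) + b) = 1) : False := by
  have e0 := cub_cast (r * a + b)
  have e2 := cub_cast (r * ((a + 2 * d : ℕ) : ℤ) + b)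
  rw [h0, dif_eq] at e0
  rw [h2, dif_eq] at e2
  push_cast at e0 e2
  have hr' : (1 : ℤ) ≤ r := by exact_mod_cast hr
  have hd' : (1 : ℤ) ≤ d := by exact_mod_cast hd
  obtain ⟨K, hK⟩ : ∃ K : ℤ, K = (r : ℤ) * a + b := ⟨_, rfl⟩
  obtain ⟨D, hD⟩ : ∃ D : ℤ, D = (r : ℤ) * d := ⟨_, rfl⟩
  have hD1 : 1 ≤ D := by rw [hD]; nlinarith
  have e3 : (r : ℤ) * (a + 2 * d) + b = K + 2 * D := by rw [hK, hD]; ring
  rw [← hK] at e0
  rw [e3] at e2
  have f0 : K * (K + 1) = 0 := by nlinarith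
  have f2 : (K + 2 * D) * (K + 2 * D + 1) = 0 := by nlinarith
  have g0 : K = 0 ∨ K = -1 := by
    rcases mul_eq_zero.1 f0 with h | h
    · left; exact h
    · right; omega
  have g2 : K + 2 * D = 0 ∨ K + 2 * D = -1 := by
    rcases mul_eq_zero.1 f2 with h | h
    · left; exact h
    · right; omega
  omega

/-- **Free arguments.** -/
theorem free (m k : ℕ) (hm : 1 ≤ m) : ∃ t : ℕ, 1 ≤ t ∧ ∃ c₀ : ℝ, 0 < c₀ ∧
    (∀ θ : ℝ, 0 < θ → ∃ X₀ : ℕ, ∀ X : ℕ, X₀ ≤ X → ∀ (r : Fin m → ℕ) (b : Fin m → ℤ), Admissible false r b →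
      ∀ u v : ℕ, θ * X ≤ (v : ℝ) - u →
        c₀ / Real.log X ^ (2 * m) ≤ dens false r b X ∧ c₀ * (((v : ℝ) - u) * dens false r b X) ≤ ((Good t X u v r b).card : ℝ)) ∧
    (∀ (L : ℕ) (θ δ : ℝ), 0 < θ → 0 < δ → ∃ D X₀ : ℕ, ∀ X : ℕ, X₀ ≤ X → ∀ (r : Fin m → ℕ) (b : Fin m → ℤ),
      Admissible false r b → ∀ u v : ℕ, v ≤ u + X → θ * X ≤ (v : ℝ) - u →
        ∀ S ⊆ Good t X u v r b, δ * ((Good t X u v r b).card : ℝ) ≤ S.card →
          ∃ n d : ℕ, 1 ≤ d ∧ (d : ℝ) ≤ Real.log X ^ D ∧ ∀ j < L, n + j * d ∈ S) ∧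
    (∀ (L h : ℕ) (θ : ℝ), 0 < θ → 1 ≤ h → ∃ D X₀ : ℕ, ∀ X : ℕ, X₀ ≤ X → ∀ (r : Fin m → ℕ) (b : Fin m → ℤ),
      Admissible false r b → (∀ i, 1 ≤ r i ∧ r i ≤ X ^ k ∧ |b i| ≤ (X : ℤ) ^ k) →
        ∀ u v : ℕ, v ≤ X → θ * X ≤ (v : ℝ) - u → ∀ col : ℕ → Fin h,
          ∃ (s : Fin m → ℕ) (κ : Fin h) (n d : ℕ), (∀ i, 1 ≤ s i ∧ s i ≤ t * (2 * k + 3)) ∧ 1 ≤ d ∧
            (d : ℝ) ≤ Real.log X ^ D ∧ ∀ j < L, n + j * d ∈ Good t X u v r b ∧ col (n + j * d) = κ ∧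
              ∀ i, (cub (r i * ((n + j * d : ℕ) : ℤ) + b i)).primeFactorsList.length = s i) := by
  classical
  obtain ⟨t, ht, c, hc, h1, h2, h3⟩ := types (2 * m) (by omega)
  obtain ⟨c', hc', hlow⟩ := VZ_low (2 * m) (by omega)
  refine ⟨t, ht, min c c', lt_min hc hc', ?_, ?_, ?_⟩
  · intro θ hθ
    obtain ⟨X₀, hX₀⟩ := h1 θ hθ
    refine ⟨max X₀ 2, fun X hX r b ha u v huv => ?_⟩
    have g1 : X₀ ≤ X := (le_max_left _ _).trans hX
    have g2 : 2 ≤ X := (le_max_right _ _).trans hX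
    have hX1 : (1 : ℝ) < X := by exact_mod_cast g2
    have hlog : 0 < Real.log X := Real.log_pos hX1
    refine ⟨?_, ?_⟩
    · rw [dens_false]
      refine le_trans ?_ (hlow X g2 _ (sys ha))
      exact div_le_div_of_nonneg_right (min_le_right _ _) (by positivity)
    · rw [Good_eq, dens_false]
      refine le_trans ?_ (hX₀ X g1 _ (sys ha) u v huv)
      apply mul_le_mul_of_nonneg_right (min_le_left _ _)
      exact mul_nonneg (le_trans (by positivity) huv) (VZ_nonneg (sys ha) 0 X)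
  · intro L θ δ hθ hδ
    obtain ⟨D, X₀, hX₀⟩ := h2 L θ δ hθ hδ
    refine ⟨D, X₀, fun X hX r b ha u v hv huv S hS hSc => ?_⟩
    rw [Good_eq] at hS hSc
    exact hX₀ X hX _ (sys ha) u v hv huv S hS hSc
  · intro L h θ hθ hh
    obtain ⟨K, hK⟩ : ∃ K : Finset ((Fin m → ℕ) × Fin h), K = (Fintype.piFinset (fun _ : Fin m => Icc 0 (t * (2 * k + 3)))) ×ˢ univ :=
      ⟨_, rfl⟩
    have hKne : K.Nonempty := by
      rw [hK]
      refine Finset.Nonempty.product ?_ ⟨⟨0, hh⟩, mem_univ _⟩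
      exact ⟨fun _ => 0, Fintype.mem_piFinset.2 fun _ => mem_Icc.2 ⟨le_rfl, Nat.zero_le _⟩⟩
    obtain ⟨D, X₀, hX₀⟩ := h3 (L + 3) K.card θ hθ
    refine ⟨D, max X₀ (37 * 2 ^ t), fun X hX r b ha hs u v hv huv col => ?_⟩
    have g1 : X₀ ≤ X := (le_max_left _ _).trans hX
    have g2' : 37 * 2 ^ t ≤ X := (le_max_right _ _).trans hX
    have g2 : 2 ^ t ≤ X := by omega
    have g4 : 37 ≤ X := by
      have := Nat.one_le_two_pow (n := t)
      omega
    have g3 : 2 ≤ X := by omega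
    have ht0 : (0 : ℝ) < t := by exact_mod_cast ht
    have hXr : (2 : ℝ) ≤ X := by exact_mod_cast g3
    have hz2 : (2 : ℝ) ≤ (X : ℝ) ^ (1 / (t : ℝ)) := by
      calc (2 : ℝ) = ((2 : ℝ) ^ t) ^ (1 / (t : ℝ)) := by
            rw [← Real.rpow_natCast, ← Real.rpow_mul (by norm_num), mul_one_div_cancel ht0.ne', Real.rpow_one]
        _ ≤ _ := Real.rpow_le_rpow (by positivity) (by exact_mod_cast g2) (by positivity)
    have hzt : ((X : ℝ) ^ (1 / (t : ℝ))) ^ t = X := by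
      rw [← Real.rpow_natCast, ← Real.rpow_mul (by positivity), one_div_mul_cancel ht0.ne', Real.rpow_one]
    have hlen : ∀ n ∈ IS t X u v (Z r b), ∀ i, (cub (r i * n + b i)).primeFactorsList.length ≤ t * (2 * k + 3) := by
      intro n hn i
      rw [← Good_eq] at hn
      unfold Good at hn
      rw [mem_filter, mem_Ioc] at hn
      obtain ⟨⟨n1, n2⟩, n3⟩ := hn
      refine length_le (cub_ne _) t (2 * k + 3) (by linarith) hzt.ge (by linarith) ?_ (n3 i)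
      obtain ⟨_, hri, hbi⟩ := hs i
      have hnX : (n : ℤ) ≤ X := by exact_mod_cast n2.trans hv
      have hX2 : (37 : ℤ) ≤ X := by exact_mod_cast g4
      have e5 : (1 : ℤ) ≤ (X : ℤ) ^ k := by exact_mod_cast Nat.one_le_pow _ _ (by omega)
      have hri' : (r i : ℤ) ≤ (X : ℤ) ^ k := by exact_mod_cast hri
      obtain ⟨K', hK'⟩ : ∃ K' : ℤ, K' = (r i : ℤ) * n + b i := ⟨_, rfl⟩
      have e2 : |K'| ≤ 2 * (X : ℤ) ^ (k + 1) := by
        have e3 : (r i : ℤ) * n ≤ (X : ℤ) ^ k * X := mul_le_mul hri' hnX (by omega) (by omega)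
        have e4 : (X : ℤ) ^ k ≤ (X : ℤ) ^ k * X := by nlinarith
        have e6 : 0 ≤ (r i : ℤ) * n := by positivity
        rw [hK', pow_succ, abs_le]
        rw [abs_le] at hbi
        constructor <;> linarith [hbi.1, hbi.2]
      have e6 : ((cub (r i * n + b i) : ℕ) : ℤ) = 3 * K' ^ 2 + 3 * K' + 1 := by
        rw [cub_cast, dif_eq, hK']
      have h5 : ((cub (r i * n + b i) : ℕ) : ℤ) ≤ (X : ℤ) ^ (2 * k + 3) := by
        rw [e6]
        have e7 : (1 : ℤ) ≤ (X : ℤ) ^ (k + 1) := by exact_mod_cast Nat.one_le_pow _ _ (by omega)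
        have e8 : K' ^ 2 ≤ (2 * (X : ℤ) ^ (k + 1)) ^ 2 := by
          rw [← sq_abs]
          exact pow_le_pow_left₀ (abs_nonneg _) e2 2
        have e9 : (X : ℤ) ^ (2 * k + 3) = ((X : ℤ) ^ (k + 1)) ^ 2 * X := by
          rw [← pow_mul, ← pow_succ]
          congr 1
          ring
        rw [e9]
        have e10 : (37 : ℤ) * ((X : ℤ) ^ (k + 1)) ^ 2 ≤ ((X : ℤ) ^ (k + 1)) ^ 2 * X := by
          rw [mul_comm]
          exact mul_le_mul_of_nonneg_left hX2 (by positivity)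
        have e11 : K' ≤ 2 * (X : ℤ) ^ (k + 1) := (le_abs_self _).trans e2
        nlinarith
      have h6 : cub (r i * n + b i) ≤ X ^ (2 * k + 3) := by exact_mod_cast h5
      exact_mod_cast h6
    obtain ⟨κ, hκ, n, d, hd1, hd2, h4⟩ := hX₀ X g1 _ (sys ha) u v (by omega) huv ((Fin m → ℕ) × Fin h) K
      (fun n => (fun i => (cub (r i * n + b i)).primeFactorsList.length, col n)) le_rfl hKne (by
        intro n hn
        rw [hK, mem_product, Fintype.mem_piFinset]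
        exact ⟨fun i => mem_Icc.2 ⟨Nat.zero_le _, hlen n hn i⟩, mem_univ _⟩)
    rw [hK, mem_product, Fintype.mem_piFinset] at hκ
    refine ⟨κ.1, κ.2, n, d, fun i => ⟨?_, (mem_Icc.1 (hκ.1 i)).2⟩, hd1, hd2, fun j hj => ?_⟩
    · by_contra hcon
      have hz : ∀ j < L + 3, cub (r i * ((n + j * d : ℕ) : ℤ) + b i) = 1 := by
        intro j hj
        obtain ⟨h5, h6⟩ := h4 j hj
        have h7 : (cub (r i * ((n + j * d : ℕ) : ℤ) + b i)).primeFactorsList.length = κ.1 i := by rw [← h6]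
        have h8 : (cub (r i * ((n + j * d : ℕ) : ℤ) + b i)).primeFactorsList = [] := List.length_eq_zero_iff.1 (by omega)
        rw [Nat.primeFactorsList_eq_nil] at h8
        exact h8.resolve_left (cub_ne _)
      have h0 := hz 0 (by omega)
      rw [zero_mul, add_zero] at h0
      exact cub_one_three (hs i).1 hd1 h0 (hz 2 (by omega))
    · obtain ⟨h5, h6⟩ := h4 j (by omega)
      rw [← Good_eq] at h5
      refine ⟨h5, by rw [← h6], fun i => by rw [← h6]⟩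

/-- **Prime arguments.** -/
theorem primes (m k : ℕ) : ∃ t : ℕ, 1 ≤ t ∧ ∃ c₀ : ℝ, 0 < c₀ ∧
    (∃ X₀ : ℕ, ∀ X : ℕ, X₀ ≤ X → ∀ (r : Fin m → ℕ) (b : Fin m → ℤ), Admissible true r b →
      (∀ i, 1 ≤ r i ∧ r i ≤ X ^ k) → (∀ i, -((r i : ℤ) * X) ≤ b i ∧ b i ≤ (X : ℤ) ^ k) →
      c₀ / Real.log X ^ (2 * m + 1) ≤ dens true r b X ∧ c₀ * (X * dens true r b X) ≤ ((GoodPrimes t X r b).card : ℝ)) ∧
    (∀ (L : ℕ) (δ : ℝ), 0 < δ → ∃ D X₀ : ℕ, ∀ X : ℕ, X₀ ≤ X → ∀ (r : Fin m → ℕ) (b : Fin m → ℤ), Admissible true r b →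
      (∀ i, 1 ≤ r i ∧ r i ≤ X ^ k) → (∀ i, -((r i : ℤ) * X) ≤ b i ∧ b i ≤ (X : ℤ) ^ k) →
      ∀ S ⊆ GoodPrimes t X r b, δ * ((GoodPrimes t X r b).card : ℝ) ≤ S.card →
        ∃ n d : ℕ, 1 ≤ d ∧ (d : ℝ) ≤ Real.log X ^ D ∧ ∀ j < L, n + j * d ∈ S) ∧
    (∀ (L h : ℕ), 1 ≤ h → ∃ D X₀ : ℕ, ∀ X : ℕ, X₀ ≤ X → ∀ (r : Fin m → ℕ) (b : Fin m → ℤ), Admissible true r b →
      (∀ i, 1 ≤ r i ∧ r i ≤ X ^ k) → (∀ i, -((r i : ℤ) * X) ≤ b i ∧ b i ≤ (X : ℤ) ^ k) →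
      ∀ col : ℕ → Fin h, ∃ (s : Fin m → ℕ) (κ : Fin h) (n d : ℕ), (∀ i, 1 ≤ s i ∧ s i ≤ t * (2 * k + 3)) ∧ 1 ≤ d ∧
        (d : ℝ) ≤ Real.log X ^ D ∧ ∀ j < L, n + j * d ∈ GoodPrimes t X r b ∧ col (n + j * d) = κ ∧
          ∀ i, (cub (r i * ((n + j * d : ℕ) : ℤ) + b i)).primeFactorsList.length = s i) := by
  classical
  obtain ⟨t, ht, H⟩ := natRow m (2 * m) (2 * k + 3)
  obtain ⟨c, hc, ⟨N1, h1⟩, h2, h3⟩ := H 1 0 (by norm_num)
  refine ⟨t, ht, c, hc, ⟨max N1 37, fun n hn r b ha hr hs => ?_⟩, fun L δ hδ => ?_, fun L q hq => ?_⟩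
  · rw [dens_true, GoodPrimes_eq]
    exact h1 n ((le_max_left _ _).trans hn) _ _ _ (rep ha ((le_max_right _ _).trans hn) hr hs)
  · obtain ⟨D, N, h4⟩ := h2 L δ hδ
    refine ⟨D, max N 37, fun n hn r b ha hr hs S hS hSc => ?_⟩
    rw [GoodPrimes_eq] at hS hSc
    exact h4 n ((le_max_left _ _).trans hn) _ _ _ (rep ha ((le_max_right _ _).trans hn) hr hs) S hS hSc
  · obtain ⟨D, N, h4⟩ := h3 L q hq
    refine ⟨D, max N 37, fun n hn r b ha hr hs col => ?_⟩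
    obtain ⟨s, κ, x, d, g1, g2, g3, g4⟩ := h4 n ((le_max_left _ _).trans hn) _ _ _
      (rep ha ((le_max_right _ _).trans hn) hr hs) col
    refine ⟨s, κ, x, d, g1, g2, g3, ?_⟩
    rw [GoodPrimes_eq]
    exact g4

/-- **Narrow progressions of the arguments of differences of consecutive cubes without small prime factors, uniformly in all
linear substitutions `k = r_i x + b_i`, with free `x` and with prime `x`.** A single substitution is admissible in both senses as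
soon as `r` and `(b + 1) ^ 3 - b ^ 3` are coprime; the question is the substitution `r = 1`, `b = 0`. For `m ≥ 1` and `k` there are
`t ≥ 1` and `c₀ > 0` with the following properties.

Free arguments: (1) the count in all intervals `(u, v]` of length at least `θ X`; (2) the dense subsets contain progressions of
length `L` and difference at most `log ^ D X`; (3) for every colouring there are such progressions of one colour along which
all the `cub (r_i n + b_i)` have a constant number of prime factors.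

Prime arguments: (1), (2), (3) for the primes `p` between `X` and `2 X`. -/
theorem result (m k : ℕ) (hm : 1 ≤ m) :
    (∀ (e : Bool) (r : ℕ) (b : ℤ), r.Coprime (cub b) → Admissible e (fun _ : Fin 1 => r) (fun _ => b)) ∧
    (∃ t : ℕ, 1 ≤ t ∧ ∃ c₀ : ℝ, 0 < c₀ ∧
    (∀ θ : ℝ, 0 < θ → ∃ X₀ : ℕ, ∀ X : ℕ, X₀ ≤ X → ∀ (r : Fin m → ℕ) (b : Fin m → ℤ), Admissible false r b →
      ∀ u v : ℕ, θ * X ≤ (v : ℝ) - u →
        c₀ / Real.log X ^ (2 * m) ≤ dens false r b X ∧ c₀ * (((v : ℝ) - u) * dens false r b X) ≤ ((Good t X u v r b).card : ℝ)) ∧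
    (∀ (L : ℕ) (θ δ : ℝ), 0 < θ → 0 < δ → ∃ D X₀ : ℕ, ∀ X : ℕ, X₀ ≤ X → ∀ (r : Fin m → ℕ) (b : Fin m → ℤ),
      Admissible false r b → ∀ u v : ℕ, v ≤ u + X → θ * X ≤ (v : ℝ) - u →
        ∀ S ⊆ Good t X u v r b, δ * ((Good t X u v r b).card : ℝ) ≤ S.card →
          ∃ n d : ℕ, 1 ≤ d ∧ (d : ℝ) ≤ Real.log X ^ D ∧ ∀ j < L, n + j * d ∈ S) ∧
    (∀ (L h : ℕ) (θ : ℝ), 0 < θ → 1 ≤ h → ∃ D X₀ : ℕ, ∀ X : ℕ, X₀ ≤ X → ∀ (r : Fin m → ℕ) (b : Fin m → ℤ),
      Admissible false r b → (∀ i, 1 ≤ r i ∧ r i ≤ X ^ k ∧ |b i| ≤ (X : ℤ) ^ k) →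
        ∀ u v : ℕ, v ≤ X → θ * X ≤ (v : ℝ) - u → ∀ col : ℕ → Fin h,
          ∃ (s : Fin m → ℕ) (κ : Fin h) (n d : ℕ), (∀ i, 1 ≤ s i ∧ s i ≤ t * (2 * k + 3)) ∧ 1 ≤ d ∧
            (d : ℝ) ≤ Real.log X ^ D ∧ ∀ j < L, n + j * d ∈ Good t X u v r b ∧ col (n + j * d) = κ ∧
              ∀ i, (cub (r i * ((n + j * d : ℕ) : ℤ) + b i)).primeFactorsList.length = s i)) ∧
    (∃ t : ℕ, 1 ≤ t ∧ ∃ c₀ : ℝ, 0 < c₀ ∧
    (∃ X₀ : ℕ, ∀ X : ℕ, X₀ ≤ X → ∀ (r : Fin m → ℕ) (b : Fin m → ℤ), Admissible true r b →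
      (∀ i, 1 ≤ r i ∧ r i ≤ X ^ k) → (∀ i, -((r i : ℤ) * X) ≤ b i ∧ b i ≤ (X : ℤ) ^ k) →
      c₀ / Real.log X ^ (2 * m + 1) ≤ dens true r b X ∧ c₀ * (X * dens true r b X) ≤ ((GoodPrimes t X r b).card : ℝ)) ∧
    (∀ (L : ℕ) (δ : ℝ), 0 < δ → ∃ D X₀ : ℕ, ∀ X : ℕ, X₀ ≤ X → ∀ (r : Fin m → ℕ) (b : Fin m → ℤ), Admissible true r b →
      (∀ i, 1 ≤ r i ∧ r i ≤ X ^ k) → (∀ i, -((r i : ℤ) * X) ≤ b i ∧ b i ≤ (X : ℤ) ^ k) →
      ∀ S ⊆ GoodPrimes t X r b, δ * ((GoodPrimes t X r b).card : ℝ) ≤ S.card →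
        ∃ n d : ℕ, 1 ≤ d ∧ (d : ℝ) ≤ Real.log X ^ D ∧ ∀ j < L, n + j * d ∈ S) ∧
    (∀ (L h : ℕ), 1 ≤ h → ∃ D X₀ : ℕ, ∀ X : ℕ, X₀ ≤ X → ∀ (r : Fin m → ℕ) (b : Fin m → ℤ), Admissible true r b →
      (∀ i, 1 ≤ r i ∧ r i ≤ X ^ k) → (∀ i, -((r i : ℤ) * X) ≤ b i ∧ b i ≤ (X : ℤ) ^ k) →
      ∀ col : ℕ → Fin h, ∃ (s : Fin m → ℕ) (κ : Fin h) (n d : ℕ), (∀ i, 1 ≤ s i ∧ s i ≤ t * (2 * k + 3)) ∧ 1 ≤ d ∧
        (d : ℝ) ≤ Real.log X ^ D ∧ ∀ j < L, n + j * d ∈ GoodPrimes t X r b ∧ col (n + j * d) = κ ∧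
          ∀ i, (cub (r i * ((n + j * d : ℕ) : ℤ) + b i)).primeFactorsList.length = s i)) :=
  ⟨fun e _ _ h => adm_one e h, free m k hm, primes m k⟩

end Pool.Agent.Results.MP_22d6bb_nt.NarrowProgressions
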