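import Pool.Agent.Q106.ST.IncP
import Pool.Agent.Q106.ST.Cub
import Pool.Agent.Q120.GM.Exists

/-!
# MP_22d6bb_nt: the exact error of the Bateman-Horn formula in all short intervals, in the sieved models

The sieved model of level `Q`: a random set `A` which contains the integers `n` coprime to `Q` independently with
probability `(Q / φ(Q)) / log n` (at most `1`), and no others (`IsModel μ (level Q) A`; `Q = 1` is Cramér's model).

For a finite set `F` of polynomials (`PSys F`: not empty, all of them of degree at least one with positive leading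
coefficient) let `count A F x` be the number of the `m < x` such that all values `f(m)`, `f ∈ F`, are in `A`, and
`predicted Q F x` the product of the singular series of level `Q` and of the sum over `m < x` of the products of the
`1 / log f(m)`. For `0 < θ < 1` and `h = ⌊x^θ⌋` the path at `x` is
`incr A Q F θ x t = (number of counted m in [x, x + t h) - predicted number) / √(2 (1 - θ) · predicted number for [x, x + h) · log x)`
for `0 ≤ t ≤ 1`. Almost surely, for all systems `F` and for all finite families of systems without common sets of values at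
large arguments, the vectors of the paths of ALL short intervals are near Strassen's ball for large `x`, all elements of the
ball are approximated, and among the disjoint intervals starting at `⌊n^(1/(1-θ))⌋`, `n ≤ N`, those with a path near a given
function of energy `e < 1` have the number `N^(1-e)`, up to `N^(±δ)`.

The polynomial `cuban = (X + 1)^3 - X^3` has a positive singular series at all levels, and for `Q` the product of the primes
up to `z ≥ 3` it is `3 ∏ (1 - (-3/p) / (p - 1))`, `3 < p ≤ z`.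
-/

set_option autoImplicit false

namespace Pool.Agent.Results.MP_22d6bb_nt.ShortIntervalLaw

open Finset MeasureTheory Filter Polynomial
open scoped Topology NumberTheorySymbols
open Pool.Agent.Q120.GM (IsModel level prodMeasure trueSet)
open Pool.Agent.Q106.ST (series PSys Apart count predicted incr cuban rho)
open Pool.Agent.Q106.FL (Energy Near)

/-- The law of the intervals `[x, x + x^θ)`. -/
structure Law (Q : ℕ) (θ : ℝ) (A : Set ℕ) : Prop where
  /-- The asymptotic formula in all short intervals. -/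
  asymptotic : ∀ F : Finset ℤ[X], PSys F → 0 < series Q F →
    Tendsto (fun x : ℕ => (count A F (x + ⌊(x : ℝ) ^ θ⌋₊) - count A F x) /
      (predicted Q F (x + ⌊(x : ℝ) ^ θ⌋₊) - predicted Q F x)) atTop (𝓝 1)
  /-- The exact order of the error. -/
  order : ∀ F : Finset ℤ[X], PSys F → 0 < series Q F → ∀ c : ℝ,
    MapClusterPt c atTop (fun x : ℕ => incr A Q F θ x 1) ↔ |c| ≤ 1
  /-- All vectors of paths are near Strassen's ball. -/
  near : ∀ (r : ℕ) (F : Fin r → Finset ℤ[X]), (∀ i, PSys (F i)) → (∀ i, 0 < series Q (F i)) →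
    (∀ i j, i ≠ j → Apart (F i) (F j)) → ∀ ε > 0, ∀ᶠ x in atTop,
      ∃ φ e, e ≤ 1 ∧ Energy φ e ∧ Near ε (fun i t => incr A Q (F i) θ x t) φ
  /-- All elements of Strassen's ball are approximated. -/
  dense : ∀ (r : ℕ) (F : Fin r → Finset ℤ[X]), (∀ i, PSys (F i)) → (∀ i, 0 < series Q (F i)) →
    (∀ i j, i ≠ j → Apart (F i) (F j)) → ∀ φ e, e ≤ 1 → Energy φ e → ∀ ε > 0,
      ∃ᶠ x in atTop, Near ε (fun i t => incr A Q (F i) θ x t) φ
  /-- The number of the intervals with a path near a given function. -/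
  number : ∀ (r : ℕ) (F : Fin r → Finset ℤ[X]), (∀ i, PSys (F i)) → (∀ i, 0 < series Q (F i)) →
    (∀ i j, i ≠ j → Apart (F i) (F j)) → ∀ φ e, e < 1 → Energy φ e → ∀ δ > 0, ∃ ε₀ > 0, ∀ ε, 0 < ε → ε ≤ ε₀ →
      ∀ᶠ N : ℕ in atTop,
        (N : ℝ) ^ (1 - e - δ) ≤
          ({n : ℕ | n ≤ N ∧ Near ε (fun i t => incr A Q (F i) θ ⌊(n : ℝ) ^ (1 / (1 - θ))⌋₊ t) φ}.ncard : ℝ) ∧
        ({n : ℕ | n ≤ N ∧ Near ε (fun i t => incr A Q (F i) θ ⌊(n : ℝ) ^ (1 / (1 - θ))⌋₊ t) φ}.ncard : ℝ) ≤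
          (N : ℝ) ^ (1 - e + δ)

/-- **Strassen's law for the Bateman-Horn counts in all short intervals.** -/
theorem result :
    (∀ Q : ℕ, IsModel (prodMeasure (level Q)) (level Q) (trueSet (ι := ℕ))) ∧
    (PSys {cuban} ∧ (∀ Q : ℕ, 1 ≤ Q → 0 < series Q {cuban}) ∧ ∀ z : ℕ, 3 ≤ z → series (primorial z) {cuban} =
      3 * ∏ p ∈ (range (z + 1)).filter (fun p => p.Prime ∧ 3 < p), (1 - (J(-3 | p) : ℝ) / ((p : ℝ) - 1))) ∧
    (∀ (F : Finset ℤ[X]) (z : ℕ), series (primorial z) F =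
      ∏ p ∈ (range (z + 1)).filter (fun p => p.Prime), (1 - (rho F p : ℝ) / p) / (1 - 1 / (p : ℝ)) ^ F.card) ∧
    ∀ (Ω : Type) (_ : MeasurableSpace Ω) (μ : Measure Ω) (_ : IsProbabilityMeasure μ) (A : Ω → Set ℕ) (Q : ℕ) (θ : ℝ),
      1 ≤ Q → 0 < θ → θ < 1 → IsModel μ (level Q) A → ∀ᵐ ω ∂μ, Law Q θ (A ω) := by
  refine ⟨fun Q => Pool.Agent.Q120.GM.isModel (level Q) (Pool.Agent.Q120.GM.level_nonneg Q) (Pool.Agent.Q120.GM.level_le_one Q),
    ⟨Pool.Agent.Q106.ST.cuban_psys, fun Q hQ => Pool.Agent.Q106.ST.series_cuban_pos hQ,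
      fun z hz => Pool.Agent.Q106.ST.series_cuban hz⟩, Pool.Agent.Q106.ST.series_primorial, ?_⟩
  intro Ω _ μ _ A Q θ hQ hθ0 hθ1 hA
  haveI := Pool.Agent.Q106.GMM.countable_poly
  have h1 : ∀ᵐ ω ∂μ, ∀ F : Finset ℤ[X], PSys F → 0 < series Q F →
      Tendsto (fun x : ℕ => (count (A ω) F (x + ⌊(x : ℝ) ^ θ⌋₊) - count (A ω) F x) /
        (predicted Q F (x + ⌊(x : ℝ) ^ θ⌋₊) - predicted Q F x)) atTop (𝓝 1) ∧
      ∀ c : ℝ, MapClusterPt c atTop (fun x : ℕ => incr (A ω) Q F θ x 1) ↔ |c| ≤ 1 := by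
    rw [ae_all_iff]
    intro F
    by_cases h : PSys F ∧ 0 < series Q F
    · filter_upwards [Pool.Agent.Q106.ST.one_incr hQ hA h.1 h.2 hθ0 hθ1] with ω hω _ _
      exact hω
    · filter_upwards with ω h2 h3
      exact absurd ⟨h2, h3⟩ h
  have h2 : ∀ᵐ ω ∂μ, ∀ (r : ℕ) (F : Fin r → Finset ℤ[X]), (∀ i, PSys (F i)) → (∀ i, 0 < series Q (F i)) →
      (∀ i j, i ≠ j → Apart (F i) (F j)) →
      (∀ ε > 0, ∀ᶠ x in atTop, ∃ φ e, e ≤ 1 ∧ Energy φ e ∧ Near ε (fun i t => incr (A ω) Q (F i) θ x t) φ) ∧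
      Pool.Agent.Q106.FL.FLaw (fun n i t => incr (A ω) Q (F i) θ ⌊(n : ℝ) ^ (1 / (1 - θ))⌋₊ t) := by
    rw [ae_all_iff]
    intro r
    rw [ae_all_iff]
    intro F
    by_cases h : (∀ i, PSys (F i)) ∧ (∀ i, 0 < series Q (F i)) ∧ ∀ i j, i ≠ j → Apart (F i) (F j)
    · filter_upwards [Pool.Agent.Q106.ST.poly_incr hQ hA h.1 h.2.1 h.2.2 hθ0 hθ1] with ω hω _ _ _
      exact hω
    · filter_upwards with ω h3 h4 h5
      exact absurd ⟨h3, h4, h5⟩ h
  have htop : Tendsto (fun n : ℕ => ⌊(n : ℝ) ^ (1 / (1 - θ))⌋₊) atTop atTop := by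
    refine Pool.Agent.Q106.ST.kc_top (c := 1 / (1 - θ)) ?_
    rw [le_div_iff₀ (by linarith)]
    linarith
  filter_upwards [h1, h2] with ω hω1 hω2
  exact ⟨fun F a b => (hω1 F a b).1, fun F a b => (hω1 F a b).2, fun r F a b c => (hω2 r F a b c).1,
    fun r F a b c φ e he hφ ε hε => htop.frequently ((hω2 r F a b c).2.2.1 φ e he hφ ε hε),
    fun r F a b c => (hω2 r F a b c).2.2.2⟩

end Pool.Agent.Results.MP_22d6bb_nt.ShortIntervalLaw
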